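import Pool.Agent.Helper68.ES.St5
import Pool.Agent.Helper76.EP.M_XB1

/-!
# Project ES (MP_cb927e_an), module PX1: crossing hits
-/

set_option autoImplicit false

open MeasureTheory Set Filter Topology
open scoped ENNReal RealInnerProductSpace

namespace Pool.Agent.Helper9.ES

open Pool.Agent.Helper68.LM (Pl BB Bd Av HL ft fm DQ)
open Pool.Agent.Helper68.ES Pool.Agent.Helper68.EP Pool.Agent.Helper20.RG
open Pool.Agent.Helper20.RL (RQ Rich BM Fml Hit)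

/-- PX1 -/
theorem hPX1 (hPT : Pool.Agent.Helper20.RG.StPT) (hLGR : Pool.Agent.Helper20.RL.StLGR)
    (hEFB : Pool.Agent.Helper68.EP.StEFB) (hECR : Pool.Agent.Helper68.EP.StECR)
    (hXW : Pool.Agent.Helper68.EP.StXW) : Pool.Agent.Helper68.ES.StPX1 := by
  intro P Δ ct w u j j' q₁ q₂ k θ₁ θ₂ E₁ E₂ hS hw hwu hj hj' hB₁ hB₂ hθ₁ hθ₂ hq₂ huq hsep
  have hs₁ : |Δ.sl w j| ≤ 1 := hS.slope w j hw hj
  have hs₂ : |Δ.sl u j'| ≤ 1 := hS.slope u j' (hw.trans hwu) hj'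
  have hDD : 0 < DD P u := by
    unfold DD
    positivity
  have hθ₂' : 0 < θ₂ := by linarith
  set s₁ := Δ.sl w j with hs₁d
  set s₂ := Δ.sl u j' with hs₂d
  set F₁ := Eg E₁ (DD P w) q₁ k with hF₁
  set F₂ := Eg E₂ (DD P u) q₂ k with hF₂
  have hag : ag q₂ = 2 ^ q₂ := by
    unfold ag
    rw [if_neg (by omega)]
  have hF₂s : F₂ ⊆ Fb E₂ (DD P u) (k - 2 ^ q₂) := by
    intro z hz
    have h1 := hz.1
    rw [hag] at h1
    exact h1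
  have hF₂B : BM F₂ := by
    refine ⟨?_, ((hEFB.1 E₂ (DD P u) (k - ag q₂)).2.2 hB₂).2.subset (fun z hz => hz.1)⟩
    exact ((hEFB.1 E₂ (DD P u) (k - ag q₂)).2.2 hB₂).1.diff
      ((hEFB.1 E₂ (DD P u) (k - 2 ^ (q₂ + 1))).2.2 hB₂).1
  have hden : ∀ (y : Pl) (b' : ℤ), k - 2 ^ q₂ ≤ b' →
      volume (F₂ ∩ DQ b' y) ≤ ENNReal.ofReal (DD P u * (4 : ℝ) ^ b') := fun y b' hb =>
    (measure_mono (Set.inter_subset_inter_left _ hF₂s)).trans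
      (hEFB.2.2.2.2 E₂ (DD P u) (k - 2 ^ q₂) b' y hb)
  have hba : k - 2 ^ q₂ ≤ k - (u : ℤ) := by
    have h4 : (u : ℤ) ≤ 2 ^ q₂ := by exact_mod_cast huq
    linarith
  have had : k - (w : ℤ) = (k - (u : ℤ)) + ((u - w : ℕ) : ℤ) := by omega
  have hnar : ∀ y : Pl, Rich F₂ s₂ (k - (u : ℤ)) (k - (Δ.fl u j' : ℤ)) θ₂ y →
      k - (Δ.fl u j' : ℤ) ≤ k - 2 ^ q₂ := by
    intro y hy
    by_contra hcon
    have h1 := hXW F₂ s₂ (k - (u : ℤ)) (k - 2 ^ q₂) (k - (Δ.fl u j' : ℤ)) (DD P u) θ₂ y hs₂ hba (by omega)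
      hDD.le hden hy
    linarith
  have hcross : (2 : ℝ) ^ (k - 2 ^ q₂) ≤ |s₁ - s₂| * (2 : ℝ) ^ (k - (u : ℤ)) := by
    have e1 : (2 : ℝ) ^ (k - 2 ^ q₂) = (2 : ℝ) ^ ((u : ℤ) - 2 ^ q₂) * (2 : ℝ) ^ (k - (u : ℤ)) := by
      rw [← zpow_add₀ (by norm_num)]
      congr 1
      ring
    rw [e1]
    exact mul_le_mul_of_nonneg_right hsep.le (by positivity)
  -- the cells
  set V := Rc Δ w j k θ₁ F₁ with hV
  set a₁ : ℤ := k - (w : ℤ) with ha₁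
  set B₁ : ℤ := k - (Δ.fl w j : ℤ) with hB₁d
  have hVin : ∀ y ∈ V, ∀ z ∈ RQ s₁ a₁ B₁ y, z ∈ V := by
    intro y hy z hz
    have h1 : Rich F₁ s₁ a₁ B₁ θ₁ y := hy
    change Rich F₁ s₁ a₁ B₁ θ₁ z
    unfold Rich at h1 ⊢
    rw [hLGR.2.1 s₁ a₁ B₁ y z hz]
    exact h1
  set C : ℤ × ℤ → Set Pl := fun ι => {y | y ∈ V ∧ ⌊y 0 / (2 : ℝ) ^ a₁⌋ = ι.1 ∧
    ⌊pr s₁ y / (2 : ℝ) ^ B₁⌋ = ι.2} with hC
  have hCell : ∀ (ι : ℤ × ℤ) (y₀ : Pl), y₀ ∈ C ι → C ι = RQ s₁ a₁ B₁ y₀ := by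
    intro ι y₀ hy₀
    obtain ⟨h1, h3, h4⟩ := hy₀
    ext z
    constructor
    · rintro ⟨g1, g3, g4⟩
      exact ⟨by rw [g3, h3], by rw [g4, h4]⟩
    · intro hz
      exact ⟨hVin y₀ h1 z hz, by rw [hz.1, h3], by rw [hz.2, h4]⟩
  have hCm : ∀ ι, MeasurableSet (C ι) := by
    intro ι
    rcases (C ι).eq_empty_or_nonempty with h | ⟨y₀, hy₀⟩
    · rw [h]
      exact MeasurableSet.empty
    · rw [hCell ι y₀ hy₀]
      exact (hLGR.1 _ _ _ _).1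
  have hCd : Pairwise (Function.onFun Disjoint C) := by
    intro ι ι' hne
    rw [Function.onFun, Set.disjoint_left]
    rintro y ⟨-, h3, h4⟩ ⟨-, g3, g4⟩
    apply hne
    have e2 : ι.1 = ι'.1 := by rw [← h3, ← g3]
    have e3 : ι.2 = ι'.2 := by rw [← h4, ← g4]
    exact Prod.ext e2 e3
  have hCu : (⋃ ι, C ι) = V := by
    ext y
    simp only [mem_iUnion]
    constructor
    · rintro ⟨ι, h, -⟩
      exact h
    · intro h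
      exact ⟨(⌊y 0 / (2 : ℝ) ^ a₁⌋, ⌊pr s₁ y / (2 : ℝ) ^ B₁⌋), h, rfl, rfl⟩
  -- the set of points for one cell
  set T : ℤ × ℤ → Set Pl := fun ι => {x | (∃ y ∈ C ι, |(x - (2 : ℝ) ^ k • ct w j) 0 - y 0| ≤ 3 * (2 : ℝ) ^ a₁ ∧
      |pr s₁ (x - (2 : ℝ) ^ k • ct w j) - pr s₁ y| ≤ 2 * (2 : ℝ) ^ B₁) ∧
      Hit s₂ (ct u j') (Δ.fl u j') u k (Rc Δ u j' k θ₂ F₂) x} with hT
  have hTb : ∀ ι, volume (T ι) ≤ ENNReal.ofReal (10 ^ 6 * DD P u / θ₂) * volume (C ι) := by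
    intro ι
    rcases (T ι).eq_empty_or_nonempty with h | ⟨x₀, ⟨y₀, hy₀, -, -⟩, -⟩
    · rw [h, measure_empty]
      exact zero_le
    · have hvol : volume (C ι) = ENNReal.ofReal ((2 : ℝ) ^ (a₁ + B₁)) := by
        rw [hCell ι y₀ hy₀]
        exact (hLGR.1 _ _ _ _).2.1
      have hmain := Pool.Agent.Helper76.EP.cell_bound hECR F₂ s₁ s₂ (k - (u : ℤ)) (k - 2 ^ q₂) B₁ (u - w)
        (DD P u) θ₂ ((2 : ℝ) ^ k • ct w j) ((2 : ℝ) ^ k • ct u j') y₀ hs₁ hs₂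
        hF₂B hba hDD hθ₂' (fun y => hden y (k - 2 ^ q₂) le_rfl) (Or.inr hcross)
      rw [← had] at hmain
      have hsub : T ι ⊆ {x : Pl | |(x - (2 : ℝ) ^ k • ct w j) 0 - y₀ 0| ≤ 4 * (2 : ℝ) ^ a₁ ∧
          |pr s₁ (x - (2 : ℝ) ^ k • ct w j) - pr s₁ y₀| ≤ 3 * (2 : ℝ) ^ B₁ ∧
          ∃ i ∈ Finset.Icc (-3 : ℤ) 3, x + ((((i : ℝ) * (2 : ℝ) ^ (k - (u : ℤ))) • E s₂) -
            (2 : ℝ) ^ k • ct u j') ∈ Rs F₂ s₂ (k - (u : ℤ)) (k - 2 ^ q₂) θ₂} := by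
        rintro x ⟨⟨y₁, hy₁, n1, n2⟩, y₂, hy₂, m1, m2⟩
        have hy₁' : y₁ ∈ RQ s₁ a₁ B₁ y₀ := by
          rw [← hCell ι y₀ hy₀]
          exact hy₁
        obtain ⟨d1, d2, -⟩ := hLGR.2.2.2.1 s₁ a₁ B₁ y₀ y₁ hs₁ hy₁'
        refine ⟨?_, ?_, ?_⟩
        · rw [abs_le] at n1 ⊢
          rw [abs_lt] at d1
          constructor <;> linarith [n1.1, n1.2, d1.1, d1.2]
        · rw [abs_le] at n2 ⊢
          rw [abs_lt] at d2
          constructor <;> linarith [n2.1, n2.2, d2.1, d2.2]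
        · have hy₂' : Rich F₂ s₂ (k - (u : ℤ)) (k - (Δ.fl u j' : ℤ)) θ₂ y₂ := hy₂
          have ha0 : (0 : ℝ) < (2 : ℝ) ^ (k - (u : ℤ)) := by positivity
          have hfl : |(x - (2 : ℝ) ^ k • ct u j') 0 / (2 : ℝ) ^ (k - (u : ℤ)) -
              y₂ 0 / (2 : ℝ) ^ (k - (u : ℤ))| ≤ 3 := by
            rw [← sub_div, abs_div, abs_of_pos ha0, div_le_iff₀ ha0]
            exact m1
          obtain ⟨i, hi, hie⟩ := Pool.Agent.Helper76.EP.exists_shift _ _ hfl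
          refine ⟨i, hi, y₂, k - (Δ.fl u j' : ℤ), hnar y₂ hy₂', hy₂', ?_, ?_⟩
          · rw [← hie]
            congr 1
            rw [eq_comm, div_add' _ _ _ ha0.ne']
            congr 1
            have e0 : (E s₂) 0 = 1 := (hPT.1 1 s₂).1
            simp only [PiLp.add_apply, PiLp.sub_apply, PiLp.smul_apply, smul_eq_mul, e0]
            ring
          · have e0 : (E s₂) 0 = 1 := (hPT.1 1 s₂).1
            have e1 : (E s₂) 1 = s₂ := (hPT.1 1 s₂).2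
            have e2 : pr s₂ (x + ((((i : ℝ) * (2 : ℝ) ^ (k - (u : ℤ))) • E s₂) - (2 : ℝ) ^ k • ct u j')) =
                pr s₂ (x - (2 : ℝ) ^ k • ct u j') := by
              simp only [pr, PiLp.add_apply, PiLp.sub_apply, PiLp.smul_apply, smul_eq_mul, e0, e1]
              ring
            rw [e2]
            have hB0 : (0 : ℝ) < (2 : ℝ) ^ (k - (Δ.fl u j' : ℤ)) := by positivity
            linarith [m2]
      refine (measure_mono hsub).trans (hmain.trans ?_)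
      rw [hvol, ← ENNReal.ofReal_mul (by positivity)]
      apply ENNReal.ofReal_le_ofReal
      have hK : (0 : ℝ) ≤ DD P u / θ₂ * (2 : ℝ) ^ (a₁ + B₁) := by positivity
      calc 207900 * DD P u / θ₂ * (2 : ℝ) ^ (a₁ + B₁)
          = 207900 * (DD P u / θ₂ * (2 : ℝ) ^ (a₁ + B₁)) := by ring
        _ ≤ 10 ^ 6 * (DD P u / θ₂ * (2 : ℝ) ^ (a₁ + B₁)) := by
            apply mul_le_mul_of_nonneg_right (by norm_num) hK
        _ = 10 ^ 6 * DD P u / θ₂ * (2 : ℝ) ^ (a₁ + B₁) := by ring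
  have hcov : {x | j ∈ Hs Δ ct w k θ₁ F₁ x ∧ j' ∈ Hs Δ ct u k θ₂ F₂ x} ⊆ ⋃ ι, T ι := by
    rintro x ⟨⟨-, y₁, hy₁, n1, n2⟩, -, hhit⟩
    have hy₁' : y₁ ∈ V := hy₁
    rw [← hCu, mem_iUnion] at hy₁'
    obtain ⟨ι, hι⟩ := hy₁'
    exact mem_iUnion.2 ⟨ι, ⟨y₁, hι, n1, n2⟩, hhit⟩
  calc _ ≤ volume (⋃ ι, T ι) := measure_mono hcov
    _ ≤ ∑' ι, volume (T ι) := measure_iUnion_le _
    _ ≤ ∑' ι, ENNReal.ofReal (10 ^ 6 * DD P u / θ₂) * volume (C ι) := ENNReal.tsum_le_tsum hTb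
    _ = ENNReal.ofReal (10 ^ 6 * DD P u / θ₂) * ∑' ι, volume (C ι) := ENNReal.tsum_mul_left
    _ = ENNReal.ofReal (10 ^ 6 * DD P u / θ₂) * volume V := by
        rw [← measure_iUnion hCd hCm, hCu]

end Pool.Agent.Helper9.ES
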